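import Pool.Agent.R767.UR3

/-!
# No common inner inverse for all powers in a unit-regular ring

There is a unit-regular ring `R` and an element `a` of `R` such that no `w` in `R` satisfies
`a ^ k * w ^ k * a ^ k = a ^ k` for all `k ≥ 1`.
-/

namespace Pool.Agent.Results.MP_a7dadb_al.NoCommonInnerInverse

open R767.UR

theorem pow_indep : LinearIndependent ℚ (fun i : ℕ => (RatFunc.X : RatFunc ℚ) ^ i) := by
  have h1 := (Polynomial.basisMonomials ℚ).linearIndependent
  have h2 := h1.map' (IsScalarTower.toAlgHom ℚ (Polynomial ℚ) (RatFunc ℚ)).toLinearMap (by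
    rw [LinearMap.ker_eq_bot]
    exact RatFunc.algebraMap_injective ℚ)
  have h3 : (fun i : ℕ => (RatFunc.X : RatFunc ℚ) ^ i) =
      (IsScalarTower.toAlgHom ℚ (Polynomial ℚ) (RatFunc ℚ)).toLinearMap ∘
        (Polynomial.basisMonomials ℚ) := by
    funext i
    rw [Function.comp_apply, Polynomial.coe_basisMonomials]
    show _ = algebraMap (Polynomial ℚ) (RatFunc ℚ) (Polynomial.monomial i 1)
    rw [← Polynomial.X_pow_eq_monomial, map_pow, RatFunc.algebraMap_X]
  rw [h3]
  exact h2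

/-- There are a unit-regular ring `R` and `a` in `R` such that for every `w` in `R` some `k ≥ 1`
has `a ^ k * w ^ k * a ^ k ≠ a ^ k`. -/
theorem result : ∃ (R : Type) (_ : Ring R), (∀ a : R, ∃ u : Rˣ, a * u * a = a) ∧
    ∃ a : R, ∀ w : R, ∃ k : ℕ, 1 ≤ k ∧ a ^ k * w ^ k * a ^ k ≠ a ^ k := by
  have hli := pow_indep
  obtain ⟨g, hg⟩ := LinearMap.exists_extend (hli.repr : _ →ₗ[ℚ] (ℕ →₀ ℚ))
  have hg' : ∀ i : ℕ, g ((RatFunc.X : RatFunc ℚ) ^ i) = Finsupp.single i 1 := by
    intro i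
    have h1 : (RatFunc.X : RatFunc ℚ) ^ i ∈
        Submodule.span ℚ (Set.range (fun i : ℕ => (RatFunc.X : RatFunc ℚ) ^ i)) :=
      Submodule.subset_span ⟨i, rfl⟩
    have h2 := LinearMap.congr_fun hg ⟨_, h1⟩
    rw [LinearMap.comp_apply] at h2
    have h3 : hli.repr ⟨_, h1⟩ = Finsupp.single i 1 := hli.repr_eq_single i _ rfl
    exact h2.trans h3
  have hinf : ¬ FiniteDimensional ℚ (RatFunc ℚ) := by
    intro hfin
    have := hli.finite
    exact not_finite ℕ
  obtain ⟨S, hS1, hS2⟩ := main_construction (RatFunc.X : RatFunc ℚ) RatFunc.X_ne_zero hinf g hg'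
  exact ⟨S, inferInstance, hS1, hS2⟩

end Pool.Agent.Results.MP_a7dadb_al.NoCommonInnerInverse
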